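import Mathlib
import Pool.Agent.MP_83cc0d_an.Defs
import Pool.Agent.MP_83cc0d_an.Mg.Main

namespace Pool.Agent.Results.MP_83cc0d_an.AbsCont

open MeasureTheory Pool.Agent.MP_83cc0d_an

theorem result (d k : ℕ) (hk : 2 ≤ k) (E : Set (EuclideanSpace ℝ (Fin d))) (hE : IsCompact E)
    (μ : Measure (EuclideanSpace ℝ (Fin d))) [IsFiniteMeasure μ] (hμ : μ ≠ 0) (hμE : μ Eᶜ = 0)
    (s : ℝ) (hs : ((d : ℝ) + (k : ℝ) - 1) / 2 < s) (hI : energy s μ < ⊤)
    (x₀ : EuclideanSpace ℝ (Fin d)) :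
    Measure.AbsolutelyContinuous
        (Measure.map (pinnedVolume x₀) (Measure.pi fun _ : Fin k => μ)) (volume : Measure ℝ) ∧
      ∃ a b : ℝ, 0 < a ∧ a < b ∧
        0 < Measure.map (pinnedVolume x₀) (Measure.pi fun _ : Fin k => μ) (Set.Ioo a b) := by
  obtain ⟨R, hR⟩ := hE.isBounded.exists_norm_le
  have hR' : ∀ᵐ x ∂μ, ‖x‖ ≤ R := by
    filter_upwards [measure_eq_zero_iff_ae_notMem.1 hμE] with x hx
    exact hR x (by simpa using hx)
  have hac := pinned_ac hk μ hR' hs hI x₀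
  refine ⟨hac, ?_⟩
  by_contra hc
  push Not at hc
  set ν := Measure.map (pinnedVolume x₀) (Measure.pi fun _ : Fin k => μ) with hν
  have h1 : ν (⋃ n : ℕ, Set.Ioo (1 / ((n : ℝ) + 1)) ((n : ℝ) + 2)) = 0 := by
    refine measure_iUnion_null fun n => nonpos_iff_eq_zero.1 (hc _ _ (by positivity) ?_)
    have h0 : (0 : ℝ) ≤ n := Nat.cast_nonneg n
    rw [div_lt_iff₀ (by positivity)]
    nlinarith
  have h2 : ν {0} = 0 := hac (measure_singleton 0)
  have h3 : ν (Set.Iio 0) = 0 := by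
    rw [hν, Measure.map_apply (meas_pinnedVolume x₀) measurableSet_Iio]
    convert measure_empty (μ := Measure.pi fun _ : Fin k => μ)
    ext x
    simp only [Set.mem_preimage, Set.mem_Iio, Set.mem_empty_iff_false, iff_false, not_lt]
    exact Real.sqrt_nonneg _
  have h4 : ν Set.univ = 0 := by
    refine measure_mono_null (fun t _ => ?_) (measure_union_null h1 (measure_union_null h2 h3))
    rcases lt_trichotomy t 0 with h | h | h
    · exact Or.inr (Or.inr h)
    · exact Or.inr (Or.inl h)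
    · obtain ⟨n, hn⟩ := exists_nat_gt (t + 1 / t)
      have h5 : 0 < 1 / t := by positivity
      refine Or.inl (Set.mem_iUnion.2 ⟨n, ?_, by linarith⟩)
      rw [one_div_lt (by positivity) h]
      linarith
  rw [hν, Measure.map_apply (meas_pinnedVolume x₀) MeasurableSet.univ, Set.preimage_univ,
    Measure.pi_univ, Finset.prod_eq_zero_iff] at h4
  obtain ⟨-, -, h5⟩ := h4
  exact hμ (Measure.measure_univ_eq_zero.1 h5)

end Pool.Agent.Results.MP_83cc0d_an.AbsCont
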