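import Mathlib
import Pool.Agent.MP_83cc0d_an.Defs
import Pool.Agent.MP_83cc0d_an.Cm.M3

namespace Pool.Agent.Results.MP_83cc0d_an.ContDensity

open MeasureTheory Pool.Agent.MP_83cc0d_an

theorem result (d k : ℕ) (hk : 3 ≤ k) (hkd : k ≤ d) (E : Set (EuclideanSpace ℝ (Fin d)))
    (hE : IsCompact E) (μ : Measure (EuclideanSpace ℝ (Fin d))) [IsFiniteMeasure μ] (hμ : μ ≠ 0)
    (hμE : μ Eᶜ = 0) (s : ℝ) (hs : ((d : ℝ) + (k : ℝ) - 1) / 2 < s) (hI : energy s μ < ⊤)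
    (x₀ : EuclideanSpace ℝ (Fin d)) :
    ∃ h : ℝ → ℝ, ContinuousOn h (Set.Ioi 0) ∧ (∀ t, 0 < t → 0 ≤ h t) ∧ (∃ t, 0 < t ∧ h t ≠ 0) ∧
      (Measure.map (pinnedVolume x₀) (Measure.pi fun _ : Fin k => μ)).restrict (Set.Ioi 0) =
        ((volume : Measure ℝ).restrict (Set.Ioi 0)).withDensity fun t => ENNReal.ofReal (h t) := by
  obtain ⟨R, hR⟩ := hE.isBounded.exists_norm_le
  have hR' : ∀ᵐ x ∂μ, ‖x‖ ≤ R := by
    filter_upwards [measure_eq_zero_iff_ae_notMem.1 hμE] with x hx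
    exact hR x (by simpa using hx)
  exact Cd.pinned_dens hk hkd μ hμ hR' hs hI x₀

end Pool.Agent.Results.MP_83cc0d_an.ContDensity
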